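import Pool.Agent.Q20.Kf.Dich

/-!
# Contractions of cyclic permutations of the factors of a tensor power
-/

set_option autoImplicit false
set_option linter.unusedSectionVars false
set_option linter.unusedSimpArgs false
set_option backward.isDefEq.respectTransparency false
set_option backward.defeqAttrib.useBackward true

open CategoryTheory Limits MonoidalCategory
open Pool.Agent.Y112.SR Pool.Agent.Y112.KD Pool.Agent.Q20.Kf
open Equiv (Perm)

namespace Pool.Agent.Q20.PI

universe v u

section

variable {C : Type u} [Category.{v} C] [MonoidalCategory C] [SymmetricCategory C]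

/-- The tensor product `x 0 ⊗ x 1 ⊗ ⋯ ⊗ x (n - 1)`. -/
def Dg {X : C} : ∀ (n : ℕ), (Fin n → (X ⟶ X)) → (tp X n ⟶ tp X n)
  | 0, _ => 𝟙 _
  | n + 1, x => Dg n (fun i => x i.castSucc) ⊗ₘ x (Fin.last n)

lemma Dg_succ {X : C} (n : ℕ) (x : Fin (n + 1) → (X ⟶ X)) :
    Dg (n + 1) x = Dg n (fun i => x i.castSucc) ⊗ₘ x (Fin.last n) := rfl

lemma exch_Dg {X : C} : ∀ (n : ℕ) (i : Fin n) (x : Fin (n + 1) → (X ⟶ X)),
    exch X n i ≫ Dg (n + 1) x =
      Dg (n + 1) (fun j => x (Equiv.swap i.castSucc i.succ j)) ≫ exch X n i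
  | 0, i, _ => i.elim0
  | n + 1, i, x => by
    induction i using Fin.lastCases with
    | last =>
      have e : exch X (n + 1) ((Fin.last n : Fin (n + 1)) : ℕ) = sw (tp X n) X := exch_last X n
      rw [e, Dg_succ, Dg_succ, Dg_succ, Dg_succ]
      have h1 : ∀ i : Fin n, Equiv.swap (Fin.last n).castSucc (Fin.last n).succ
          i.castSucc.castSucc = i.castSucc.castSucc := by
        intro i
        refine Equiv.swap_apply_of_ne_of_ne ?_ ?_
        · intro h
          have := congrArg Fin.val h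
          simp at this
          omega
        · intro h
          have := congrArg Fin.val h
          simp at this
          omega
      have h2 : Equiv.swap (Fin.last n).castSucc (Fin.last n).succ (Fin.last (n + 1)) =
          (Fin.last n).castSucc := by
        rw [Fin.succ_last, Equiv.swap_apply_right]
      have h3 : Equiv.swap (Fin.last n).castSucc (Fin.last n).succ (Fin.last n).castSucc =
          Fin.last (n + 1) := by
        rw [Fin.succ_last, Equiv.swap_apply_left]
      simp only [h1, h2, h3]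
      exact (sw_nat _ _ _).symm
    | cast i =>
      have e : exch X (n + 1) ((i.castSucc : Fin (n + 1)) : ℕ) = exch X n i ▷ X :=
        exch_lift X n _ (by simp; omega)
      have h1 : ∀ j : Fin (n + 1), Equiv.swap i.castSucc.castSucc i.castSucc.succ j.castSucc =
          (Equiv.swap i.castSucc i.succ j).castSucc := by
        intro j
        rw [← up_castSucc, up_swap, Fin.succ_castSucc]
      have h2 : Equiv.swap i.castSucc.castSucc i.castSucc.succ (Fin.last (n + 1)) =
          Fin.last (n + 1) := by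
        rw [Fin.succ_castSucc, ← up_swap, up_last]
      rw [e, Dg_succ (n + 1), Dg_succ (n + 1), ← tensorHom_id, tensorHom_comp_tensorHom,
        tensorHom_comp_tensorHom, Category.id_comp, Category.comp_id, exch_Dg n i, h2]
      simp only [h1]

lemma pa_Dg {X : C} (n : ℕ) (σ : Perm (Fin (n + 1))) (x : Fin (n + 1) → (X ⟶ X)) :
    (pa X n σ : tp X (n + 1) ⟶ tp X (n + 1)) ≫ Dg (n + 1) x =
      Dg (n + 1) (fun j => x (σ j)) ≫ (pa X n σ : tp X (n + 1) ⟶ tp X (n + 1)) := by
  induction mem_gen σ using Submonoid.closure_induction generalizing x with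
  | mem y hy =>
    obtain ⟨i, rfl⟩ := hy
    simp only
    rw [pa_spec X n i]
    exact exch_Dg n i x
  | one =>
    rw [map_one]
    exact (Category.id_comp _).trans (Category.comp_id _).symm
  | mul a b _ _ ha hb =>
    rw [map_mul, End.mul_def, Category.assoc, ha, ← Category.assoc, hb, Category.assoc]
    rfl

variable [RightRigidCategory C]

lemma ptr_comp_a {M N : C} (a : M ⟶ M) (x : M ⊗ N ⟶ M ⊗ N) :
    ptr (a ▷ N ≫ x) = a ≫ ptr x := by
  have := ptr_comp (N := N) a (𝟙 M) x
  simpa using this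

lemma ptr_swap_last {X : C} (m : ℕ) (x : Fin (m + 2) → (X ⟶ X)) :
    ptr (sw (tp X m) X ≫ Dg (m + 2) x) =
      Dg (m + 1) (Function.update (fun i => x i.castSucc) (Fin.last m)
        (x (Fin.last (m + 1)) ≫ x (Fin.last m).castSucc)) := by
  set q := x (Fin.last (m + 1)) with hq
  set p := x (Fin.last m).castSucc with hp
  set z := Dg m (fun i => x i.castSucc.castSucc) with hz
  have h1 : Dg (m + 2) x = ((tp X m ⊗ X) ◁ q) ≫ ((z ⊗ₘ p) ▷ X) := by
    rw [← MonoidalCategory.tensorHom_def']
    rfl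
  have h2 : sw (tp X m) X ≫ ((tp X m ⊗ X) ◁ q) = ((tp X m ◁ q) ▷ X) ≫ sw (tp X m) X := by
    have h := sw_nat_last (tp X m) q
    have h3 := congrArg (fun y => sw (tp X m) X ≫ y ≫ sw (tp X m) X) h
    simp only [Category.assoc, sw_sw, Category.comp_id] at h3
    rw [h3, ← Category.assoc (sw (tp X m) X), sw_sw, Category.id_comp]
  have h4 : sw (tp X m) X ≫ Dg (m + 2) x =
      ((tp X m ◁ q) ▷ X) ≫ sw (tp X m) X ≫ ((z ⊗ₘ p) ▷ X) := by
    rw [h1, ← Category.assoc, h2, Category.assoc]
  rw [h4, ptr_comp, ptr_sw, Category.id_comp, Dg_succ, Function.update_self]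
  have h5 : (fun i : Fin m => Function.update (fun i : Fin (m + 1) => x i.castSucc) (Fin.last m)
      (q ≫ p) i.castSucc) = fun i => x i.castSucc.castSucc := by
    funext i
    exact Function.update_of_ne (Fin.castSucc_lt_last i).ne _ _
  rw [h5, ← id_tensorHom, tensorHom_comp_tensorHom, Category.id_comp]

lemma swap_conj {m : ℕ} (j : Fin (m + 1)) :
    Equiv.swap j.castSucc (Fin.last (m + 1)) =
      up (m + 1) (Equiv.swap j (Fin.last m)) * Equiv.swap (Fin.last m).castSucc
        (Fin.last (m + 1)) * up (m + 1) (Equiv.swap j (Fin.last m)) := by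
  rw [Equiv.mul_swap_eq_swap_mul, up_castSucc, up_last, Equiv.swap_apply_right, mul_assoc,
    ← map_mul, Equiv.swap_mul_self, map_one, mul_one]

lemma ptr_swap {X : C} (m : ℕ) (j : Fin (m + 1)) (x : Fin (m + 2) → (X ⟶ X)) :
    ptr ((pa X (m + 1) (Equiv.swap j.castSucc (Fin.last (m + 1))) :
      tp X (m + 1) ⊗ X ⟶ tp X (m + 1) ⊗ X) ≫ Dg (m + 2) x) =
      Dg (m + 1) (Function.update (fun i => x i.castSucc) j
        (x (Fin.last (m + 1)) ≫ x j.castSucc)) := by
  set s := Equiv.swap j (Fin.last m) with hs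
  have h1 : (pa X (m + 1) (Equiv.swap j.castSucc (Fin.last (m + 1))) :
      tp X (m + 1) ⊗ X ⟶ tp X (m + 1) ⊗ X) = ((pa X m s : tp X (m + 1) ⟶ tp X (m + 1)) ▷ X) ≫
        sw (tp X m) X ≫ ((pa X m s : tp X (m + 1) ⟶ tp X (m + 1)) ▷ X) := by
    rw [swap_conj, map_mul, map_mul, End.mul_def, End.mul_def, pa_last, pa_up]
  have h2 : ((pa X m s : tp X (m + 1) ⟶ tp X (m + 1)) ▷ X) ≫ Dg (m + 2) x =
      Dg (m + 2) (fun i => x (up (m + 1) s i)) ≫
        ((pa X m s : tp X (m + 1) ⟶ tp X (m + 1)) ▷ X) := by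
    have h3 := pa_Dg (m + 1) (up (m + 1) s) x
    rw [pa_up] at h3
    exact h3
  have h3 : (pa X (m + 1) (Equiv.swap j.castSucc (Fin.last (m + 1))) :
      tp X (m + 1) ⊗ X ⟶ tp X (m + 1) ⊗ X) ≫ Dg (m + 2) x =
      ((pa X m s : tp X (m + 1) ⟶ tp X (m + 1)) ▷ X) ≫
        (sw (tp X m) X ≫ Dg (m + 2) (fun i => x (up (m + 1) s i))) ≫
          ((pa X m s : tp X (m + 1) ⟶ tp X (m + 1)) ▷ X) := by
    rw [h1, Category.assoc, Category.assoc, h2, Category.assoc]
  rw [h3, ptr_comp, ptr_swap_last, ← Category.assoc, pa_Dg, Category.assoc]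
  have h4 : (pa X m s : tp X (m + 1) ⟶ tp X (m + 1)) ≫
      (pa X m s : tp X (m + 1) ⟶ tp X (m + 1)) = 𝟙 _ := by
    have h5 : pa X m (s * s) = 1 := by
      rw [hs, Equiv.swap_mul_self, map_one]
    rw [map_mul] at h5
    exact h5
  rw [h4, Category.comp_id]
  congr 1
  funext i
  have h6 : ∀ i : Fin (m + 1), up (m + 1) s i.castSucc = (s i).castSucc := up_castSucc s
  have h7 : s (Fin.last m) = j := Equiv.swap_apply_right _ _
  have h8 : s j = Fin.last m := Equiv.swap_apply_left _ _
  have h9 : s (s i) = i := DFunLike.congr_fun (Equiv.swap_mul_self j (Fin.last m)) i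
  by_cases hi : i = j
  · subst hi
    rw [h8, Function.update_self, Function.update_self, up_last, h6, h7]
  · have hi' : s i ≠ Fin.last m := by
      intro h
      apply hi
      rw [← h9, h, h7]
    rw [Function.update_of_ne hi', Function.update_of_ne hi, h6, h9]

end

end Pool.Agent.Q20.PI
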