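import Mathlib

/-!
# Permutations without long decreasing subsequences

A linear relation between the permutations of `N` letters bounds the dimension of the span of the
permutations of `m` letters by `(N - 1) ^ (2 m)` (Regev, Latyshev).
-/

set_option autoImplicit false

open Equiv (Perm)

namespace Pool.Agent.Q20.PI

/-- There is a decreasing subsequence of length `k + 1` starting at `i`. -/
def Chain {m : ℕ} (π : Perm (Fin m)) (i : Fin m) (k : ℕ) : Prop :=
  ∃ e : Fin (k + 1) → Fin m, e 0 = i ∧ StrictMono e ∧ StrictAnti fun a => π (e a)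

lemma chain_zero {m : ℕ} (π : Perm (Fin m)) (i : Fin m) : Chain π i 0 :=
  ⟨fun _ => i, rfl, fun a b h => absurd h (by omega), fun a b h => absurd h (by omega)⟩

lemma chain_le {m : ℕ} {π : Perm (Fin m)} {i : Fin m} {k : ℕ} (h : Chain π i k) : k + 1 ≤ m := by
  obtain ⟨e, -, he, -⟩ := h
  simpa using Fintype.card_le_of_injective e he.injective

/-- The largest length (minus one) of a decreasing subsequence starting at `i`. -/
noncomputable def col {m : ℕ} (π : Perm (Fin m)) (i : Fin m) : ℕ := sSup {k | Chain π i k}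

lemma col_bdd {m : ℕ} (π : Perm (Fin m)) (i : Fin m) : BddAbove {k | Chain π i k} :=
  ⟨m, fun _ hk => (Nat.le_succ _).trans (chain_le hk)⟩

lemma chain_col {m : ℕ} (π : Perm (Fin m)) (i : Fin m) : Chain π i (col π i) :=
  Nat.sSup_mem ⟨0, chain_zero π i⟩ (col_bdd π i)

lemma le_col {m : ℕ} {π : Perm (Fin m)} {i : Fin m} {k : ℕ} (h : Chain π i k) : k ≤ col π i :=
  le_csSup (col_bdd π i) h

lemma col_lt {m : ℕ} {π : Perm (Fin m)} {i j : Fin m} (hij : i < j) (h : π j < π i) :
    col π j < col π i := by
  obtain ⟨e, he0, he, he'⟩ := chain_col π j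
  refine Nat.lt_of_succ_le (le_col ⟨Matrix.vecCons i e, rfl, ?_, ?_⟩)
  · rw [strictMono_vecCons]
    exact ⟨by rw [he0]; exact hij, he⟩
  · have h1 : (fun a => π (Matrix.vecCons i e a)) = Matrix.vecCons (π i) fun a => π (e a) := by
      funext a
      refine Fin.cases ?_ (fun b => ?_) a <;> simp
    rw [h1, strictAnti_vecCons]
    exact ⟨by rw [he0]; exact h, he'⟩

/-- No decreasing subsequence of length `N`. -/
def Good (N : ℕ) {m : ℕ} (π : Perm (Fin m)) : Prop :=
  ∀ e : Fin N → Fin m, StrictMono e → ¬ StrictAnti fun a => π (e a)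

lemma chain_mono {m : ℕ} {π : Perm (Fin m)} {i : Fin m} {k l : ℕ} (h : Chain π i k) (hl : l ≤ k) :
    Chain π i l := by
  obtain ⟨e, he0, he, he'⟩ := h
  refine ⟨fun a => e (Fin.castLE (by omega) a), ?_, fun a b hab => he ?_, fun a b hab => he' ?_⟩
  · exact (congrArg e (Fin.ext rfl)).trans he0
  · exact hab
  · exact hab

lemma col_lt_of_good {N m : ℕ} {π : Perm (Fin m)} (h : Good (N + 1) π) (i : Fin m) :
    col π i < N := by
  by_contra hc
  push Not at hc
  obtain ⟨e, -, he, he'⟩ := chain_mono (chain_col π i) hc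
  exact h e he he'

lemma eq_of_col {m : ℕ} {π π' : Perm (Fin m)} (h : ∀ i, col π i = col π' i)
    (h' : ∀ v, col π (π.symm v) = col π' (π'.symm v)) : π = π' := by
  by_contra hne
  have hex : ∃ i : ℕ, ∃ hi : i < m, π ⟨i, hi⟩ ≠ π' ⟨i, hi⟩ := by
    by_contra hcon
    push Not at hcon
    exact hne (Equiv.ext fun i => hcon i i.2)
  classical
  obtain ⟨hi, hd⟩ := Nat.find_spec hex
  set i0 := Nat.find hex with hi0
  have hmin : ∀ j : Fin m, (j : ℕ) < i0 → π j = π' j := by
    intro j hj
    by_contra hc
    exact Nat.find_min hex hj ⟨j.2, hc⟩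
  -- a symmetric statement
  have key : ∀ (σ σ' : Perm (Fin m)), (∀ i, col σ i = col σ' i) →
      (∀ v, col σ (σ.symm v) = col σ' (σ'.symm v)) → (∀ j : Fin m, (j : ℕ) < i0 → σ j = σ' j) →
      σ ⟨i0, hi⟩ < σ' ⟨i0, hi⟩ → False := by
    intro σ σ' hc hc' hm hlt
    set v := σ ⟨i0, hi⟩ with hv
    set j := σ'.symm v with hj
    have hjv : σ' j = v := by rw [hj]; exact Equiv.apply_symm_apply _ _
    have hsv : σ.symm v = ⟨i0, hi⟩ := by rw [hv]; exact Equiv.symm_apply_apply _ _
    have hcol : col σ' j = col σ' ⟨i0, hi⟩ := by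
      rw [hj, ← hc', hsv, hc]
    rcases lt_trichotomy (j : ℕ) i0 with h1 | h1 | h1
    · have h2 := hm j h1
      rw [hjv, hv] at h2
      have h3 := σ.injective h2
      rw [h3] at h1
      exact lt_irrefl _ h1
    · have h2 : j = ⟨i0, hi⟩ := Fin.ext h1
      rw [h2] at hjv
      rw [hjv] at hlt
      exact lt_irrefl _ hlt
    · have h2 : (⟨i0, hi⟩ : Fin m) < j := h1
      have h3 : σ' j < σ' ⟨i0, hi⟩ := by rw [hjv]; exact hlt
      have := col_lt h2 h3
      rw [hcol] at this
      exact lt_irrefl _ this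
  rcases lt_or_gt_of_ne hd with h1 | h1
  · exact key π π' h h' hmin h1
  · exact key π' π (fun i => (h i).symm) (fun v => (h' v).symm) (fun j hj => (hmin j hj).symm) h1

lemma card_good (N m : ℕ) : Nat.card {π : Perm (Fin m) // Good (N + 1) π} ≤ N ^ (2 * m) := by
  let F : {π : Perm (Fin m) // Good (N + 1) π} → (Fin m → Fin N) × (Fin m → Fin N) := fun π =>
    (fun i => ⟨col π.1 i, col_lt_of_good π.2 i⟩,
      fun v => ⟨col π.1 (π.1.symm v), col_lt_of_good π.2 _⟩)
  have hF : Function.Injective F := by
    intro π π' h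
    have h1 := congrArg Prod.fst h
    have h2 := congrArg Prod.snd h
    refine Subtype.ext (eq_of_col (fun i => ?_) fun v => ?_)
    · exact Fin.val_eq_of_eq (congrFun h1 i)
    · exact Fin.val_eq_of_eq (congrFun h2 v)
  have h1 := Nat.card_le_card_of_injective F hF
  rw [Nat.card_prod, Nat.card_fun, Nat.card_fin, Nat.card_fin, ← pow_add, ← two_mul] at h1
  exact h1

/-- The straightening. -/
theorem span_good {V : Type*} [AddCommGroup V] [Module ℚ V] {N m : ℕ} (z : Perm (Fin N) → ℚ)
    (hz : z 1 ≠ 0) (ρ : Perm (Fin m) → V)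
    (h : ∀ (π : Perm (Fin m)) (e : Fin N ↪ Fin m),
      ∑ τ, z τ • ρ (π * Equiv.Perm.viaFintypeEmbedding τ e) = 0) :
    Submodule.span ℚ (Set.range ρ) = Submodule.span ℚ (ρ '' {π | Good N π}) := by
  refine le_antisymm ?_ (Submodule.span_mono (Set.image_subset_range _ _))
  rw [Submodule.span_le]
  rintro _ ⟨π, rfl⟩
  have main : ∀ f : Lex (Fin m → Fin m), ∀ π : Perm (Fin m), toLex (fun i => π i) = f →
      ρ π ∈ Submodule.span ℚ (ρ '' {π | Good N π}) := by
    intro f
    induction f using WellFoundedLT.induction with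
    | ind f ih =>
      intro π hπ
      by_cases hg : Good N π
      · exact Submodule.subset_span ⟨π, hg, rfl⟩
      · simp only [Good] at hg
        push Not at hg
        obtain ⟨e, he, he'⟩ := hg
        have h1 := h π ⟨e, he.injective⟩
        rw [← Finset.add_sum_erase _ _ (Finset.mem_univ (1 : Perm (Fin N)))] at h1
        have h2 : π * Equiv.Perm.viaFintypeEmbedding (1 : Perm (Fin N)) ⟨e, he.injective⟩ = π := by
          have : Equiv.Perm.viaFintypeEmbedding (1 : Perm (Fin N)) ⟨e, he.injective⟩ = 1 := by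
            ext x
            by_cases hx : x ∈ Set.range e
            · obtain ⟨a, rfl⟩ := hx
              have := Equiv.Perm.viaFintypeEmbedding_apply_image (1 : Perm (Fin N))
                ⟨e, he.injective⟩ a
              simp only [Function.Embedding.coeFn_mk] at this
              rw [this]
              simp
            · have := Equiv.Perm.viaFintypeEmbedding_apply_notMem_range (1 : Perm (Fin N))
                ⟨e, he.injective⟩ hx
              rw [this]
              simp
          rw [this, mul_one]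
        rw [h2] at h1
        have h3 : ρ π = -(z 1)⁻¹ • ∑ τ ∈ Finset.univ.erase (1 : Perm (Fin N)),
            z τ • ρ (π * Equiv.Perm.viaFintypeEmbedding τ ⟨e, he.injective⟩) := by
          have h4 := eq_neg_of_add_eq_zero_left h1
          calc ρ π = (z 1)⁻¹ • (z 1 • ρ π) := by rw [smul_smul, inv_mul_cancel₀ hz, one_smul]
            _ = _ := by rw [h4, smul_neg, neg_smul]
        rw [h3]
        refine Submodule.smul_mem _ _ (Submodule.sum_mem _ fun τ hτ => Submodule.smul_mem _ _ ?_)
        have hτ1 : τ ≠ 1 := Finset.ne_of_mem_erase hτ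
        refine ih _ ?_ _ rfl
        rw [← hπ]
        -- the first index moved by `τ`
        have hex : ∃ j : ℕ, ∃ hj : j < N, τ ⟨j, hj⟩ ≠ ⟨j, hj⟩ := by
          by_contra hcon
          push Not at hcon
          exact hτ1 (Equiv.ext fun i => hcon i i.2)
        classical
        obtain ⟨hj, hd⟩ := Nat.find_spec hex
        set j0 := Nat.find hex with hj0
        have hmin : ∀ j : Fin N, (j : ℕ) < j0 → τ j = j := by
          intro j hj
          by_contra hc
          exact Nat.find_min hex hj ⟨j.2, hc⟩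
        have hgt : (⟨j0, hj⟩ : Fin N) < τ ⟨j0, hj⟩ := by
          by_contra hc
          push Not at hc
          have h5 := lt_of_le_of_ne hc hd
          have h6 := hmin _ h5
          exact hd (τ.injective h6)
        refine ⟨e ⟨j0, hj⟩, ?_, ?_⟩
        · intro p hp
          change π (Equiv.Perm.viaFintypeEmbedding τ ⟨e, he.injective⟩ p) = π p
          congr 1
          by_cases hx : p ∈ Set.range e
          · obtain ⟨a, rfl⟩ := hx
            have h5 := Equiv.Perm.viaFintypeEmbedding_apply_image τ ⟨e, he.injective⟩ a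
            simp only [Function.Embedding.coeFn_mk] at h5
            have h6 : a < ⟨j0, hj⟩ := he.lt_iff_lt.mp hp
            rw [h5, hmin a h6]
          · exact Equiv.Perm.viaFintypeEmbedding_apply_notMem_range τ ⟨e, he.injective⟩ hx
        · change π (Equiv.Perm.viaFintypeEmbedding τ ⟨e, he.injective⟩ (e ⟨j0, hj⟩)) <
            π (e ⟨j0, hj⟩)
          have h5 := Equiv.Perm.viaFintypeEmbedding_apply_image τ ⟨e, he.injective⟩ ⟨j0, hj⟩
          simp only [Function.Embedding.coeFn_mk] at h5
          rw [h5]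
          exact he' hgt
  exact main _ π rfl

/-- The dimension of the span. -/
theorem finrank_span {V : Type*} [AddCommGroup V] [Module ℚ V] {N m : ℕ}
    (z : Perm (Fin (N + 1)) → ℚ) (hz : z 1 ≠ 0) (ρ : Perm (Fin m) → V)
    (h : ∀ (π : Perm (Fin m)) (e : Fin (N + 1) ↪ Fin m),
      ∑ τ, z τ • ρ (π * Equiv.Perm.viaFintypeEmbedding τ e) = 0) :
    Module.finrank ℚ (Submodule.span ℚ (Set.range ρ)) ≤ N ^ (2 * m) := by
  classical
  rw [span_good z hz ρ h]
  have h1 : (Set.toFinite (ρ '' {π | Good (N + 1) π})).toFinset.card ≤ N ^ (2 * m) := by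
    refine le_trans ?_ (card_good N m)
    rw [← Set.ncard_eq_toFinset_card _ (Set.toFinite _)]
    refine (Set.ncard_image_le (Set.toFinite _)).trans ?_
    rw [← Nat.card_coe_set_eq]
    rfl
  have h2 := finrank_span_finset_le_card (R := ℚ)
    (Set.toFinite (ρ '' {π | Good (N + 1) π})).toFinset
  rw [Set.Finite.coe_toFinset] at h2
  exact h2.trans h1

end Pool.Agent.Q20.PI
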