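import Mathlib

/-!
# Lower bounds for the degrees of polynomial identities of group algebras
-/

set_option autoImplicit false

open Equiv (Perm)

namespace Pool.Agent.Q20.PI

section Mat

variable {K : Type*} [Field K]

lemma isChain_of_prod_ne {n : ℕ} : ∀ L : List (Fin n × Fin n),
    (L.map fun p => Matrix.single p.1 p.2 (1 : K)).prod ≠ 0 → L.IsChain (fun a b => a.2 = b.1)
  | [], _ => List.IsChain.nil
  | [a], _ => List.IsChain.singleton a
  | a :: b :: L, h => by
    have h1 : (List.map (fun p => Matrix.single p.1 p.2 (1 : K)) (b :: L)).prod ≠ 0 := by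
      intro h1
      apply h
      rw [List.map_cons, List.prod_cons, h1, mul_zero]
    rw [List.isChain_cons_cons]
    refine ⟨?_, isChain_of_prod_ne (b :: L) h1⟩
    by_contra hab
    apply h
    rw [List.map_cons, List.map_cons, List.prod_cons, List.prod_cons, ← mul_assoc,
      Matrix.single_mul_single_of_ne _ _ _ _ hab, zero_mul]

lemma prod_of_isChain {n : ℕ} : ∀ (L : List (Fin n × Fin n)) (a : Fin n × Fin n),
    (a :: L).IsChain (fun a b => a.2 = b.1) →
    ∃ c, ((a :: L).map fun p => Matrix.single p.1 p.2 (1 : K)).prod = Matrix.single a.1 c 1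
  | [], a, _ => ⟨a.2, by simp⟩
  | b :: L, a, h => by
    rw [List.isChain_cons_cons] at h
    obtain ⟨c, hc⟩ := prod_of_isChain L b h.2
    refine ⟨c, ?_⟩
    rw [List.map_cons, List.prod_cons, hc, h.1, Matrix.single_mul_single_same, one_mul]

lemma perm_eq_one {d : ℕ} (p : Perm (Fin d))
    (h : ∀ (i : ℕ) (hi : i + 1 < d), ((p ⟨i, by omega⟩ : ℕ) + 1) / 2 = (p ⟨i + 1, hi⟩ : ℕ) / 2) :
    p = 1 := by
  have hmono : StrictMono p := by
    rcases d with - | d
    · intro i
      exact i.elim0
    rw [Fin.strictMono_iff_lt_succ]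
    intro i
    have h1 := h i (by omega)
    have h2 : p i.castSucc ≠ p i.succ := fun e => (Fin.castSucc_lt_succ (i := i)).ne (p.injective e)
    have h3 : (p i.castSucc : ℕ) ≠ (p i.succ : ℕ) := fun e => h2 (Fin.ext e)
    have e1 : (⟨i, by omega⟩ : Fin (d + 1)) = i.castSucc := rfl
    have e2 : (⟨i + 1, by omega⟩ : Fin (d + 1)) = i.succ := rfl
    rw [e1, e2] at h1
    rw [Fin.lt_def]
    omega
  have hs : Function.Surjective p := p.surjective
  ext i
  exact Fin.coe_orderIso_apply (hmono.orderIsoOfSurjective p hs) i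

/-- Matrices do not satisfy identities of small degree. -/
theorem matrix_lower {n d : ℕ} (a : Perm (Fin d) → K) (ha : a ≠ 0)
    (h : ∀ x : Fin d → Matrix (Fin n) (Fin n) K,
      ∑ σ, a σ • (List.ofFn fun i => x (σ i)).prod = 0) : 2 * n ≤ d := by
  by_contra hd
  push Not at hd
  obtain ⟨σ0, hσ0⟩ := Function.ne_iff.mp ha
  let s : Fin d → Fin n × Fin n := fun i => (⟨i / 2, by omega⟩, ⟨(i + 1) / 2, by omega⟩)
  have h1 := h fun j => Matrix.single (s (σ0⁻¹ j)).1 (s (σ0⁻¹ j)).2 1
  have key : ∀ σ : Perm (Fin d), (List.ofFn fun i =>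
      Matrix.single (s (σ0⁻¹ (σ i))).1 (s (σ0⁻¹ (σ i))).2 (1 : K)) =
      (List.ofFn fun i => s ((σ0⁻¹ * σ) i)).map fun p => Matrix.single p.1 p.2 (1 : K) := by
    intro σ
    rw [List.map_ofFn]
    rfl
  rw [Finset.sum_eq_single σ0] at h1
  · have h2 : (List.ofFn fun i =>
        Matrix.single (s (σ0⁻¹ (σ0 i))).1 (s (σ0⁻¹ (σ0 i))).2 (1 : K)).prod ≠ 0 := by
      rw [key, inv_mul_cancel]
      rcases d with - | d
      · have : Nonempty (Fin n) := ⟨⟨0, by omega⟩⟩
        simp
      · rw [List.ofFn_succ]
        obtain ⟨c, hc⟩ := prod_of_isChain (K := K) (List.ofFn fun i : Fin d => s (i.succ)) (s 0) (by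
          have h3 : (List.ofFn s).IsChain (fun a b => a.2 = b.1) := by
            rw [List.isChain_ofFn]
            intro i hi
            rfl
          rwa [List.ofFn_succ] at h3)
        change (List.map (fun p => Matrix.single p.1 p.2 (1 : K))
          (s 0 :: List.ofFn fun i : Fin d => s i.succ)).prod ≠ 0
        rw [hc]
        intro h4
        have h5 := congrFun (congrFun h4 (s 0).1) c
        simp at h5
    exact (smul_ne_zero hσ0 h2) h1
  · intro σ _ hσ
    by_cases h2 : (List.ofFn fun i =>
        Matrix.single (s (σ0⁻¹ (σ i))).1 (s (σ0⁻¹ (σ i))).2 (1 : K)).prod = 0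
    · rw [h2, smul_zero]
    · exfalso
      rw [key] at h2
      have h3 := isChain_of_prod_ne _ h2
      rw [List.isChain_ofFn] at h3
      have h4 : σ0⁻¹ * σ = 1 := by
        apply perm_eq_one
        intro i hi
        have h5 := h3 i hi
        exact congrArg Fin.val h5
      apply hσ
      exact (inv_mul_eq_one.mp h4).symm
  · intro h2
    exact absurd (Finset.mem_univ _) h2

end Mat

section Grp

variable {G : Type*} [Group G]

open scoped MonoidAlgebra

/-- Central elements are class functions. -/
lemma central_coeff {z : MonoidAlgebra ℂ G} (hz : ∀ y, z * y = y * z) (g h : G) :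
    z.coeff (g * h * g⁻¹) = z.coeff h := by
  have h1 := congrArg (fun w => w.coeff (g * h)) (hz (MonoidAlgebra.single g 1))
  simp only [MonoidAlgebra.coeff_mul_single_apply, MonoidAlgebra.coeff_single_mul_apply,
    mul_one, one_mul] at h1
  rw [h1]
  congr 1
  group

/-- The number of blocks is at most the number of conjugacy classes. -/
lemma blocks_le [Finite G] {r : ℕ} (n : Fin r → ℕ) (hn : ∀ i, NeZero (n i))
    (φ : MonoidAlgebra ℂ G ≃ₐ[ℂ] (∀ i, Matrix (Fin (n i)) (Fin (n i)) ℂ)) :
    r ≤ Nat.card (ConjClasses G) := by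
  classical
  let e : Fin r → MonoidAlgebra ℂ G := fun i => φ.symm (Pi.single i 1)
  have he : ∀ i y, e i * y = y * e i := by
    intro i y
    apply φ.injective
    rw [map_mul, map_mul]
    have h1 : φ (e i) = Pi.single i 1 := φ.apply_symm_apply _
    rw [h1]
    funext j
    rw [Pi.mul_apply, Pi.mul_apply]
    by_cases hij : j = i
    · subst hij
      rw [Pi.single_eq_same, one_mul, mul_one]
    · rw [Pi.single_eq_of_ne hij, zero_mul, mul_zero]
  have hrep : ∀ g : G, ∃ k : G, g = k * (ConjClasses.mk g).out * k⁻¹ := by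
    intro g
    have h1 : ConjClasses.mk (ConjClasses.mk g).out = ConjClasses.mk g := Quotient.out_eq _
    rw [ConjClasses.mk_eq_mk_iff_isConj, isConj_iff] at h1
    obtain ⟨k, hk⟩ := h1
    exact ⟨k, hk.symm⟩
  have hli : LinearIndependent ℂ fun i => (fun c : ConjClasses G => (e i).coeff c.out) := by
    rw [Fintype.linearIndependent_iff]
    intro c hc i
    have h1 : ∑ j, c j • e j = 0 := by
      apply MonoidAlgebra.coeff_injective
      ext g
      obtain ⟨k, hk⟩ := hrep g
      have h2 := congrFun hc (ConjClasses.mk g)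
      rw [Finset.sum_apply] at h2
      rw [MonoidAlgebra.coeff_sum, Finsupp.finsetSum_apply, MonoidAlgebra.coeff_zero,
        Finsupp.zero_apply]
      refine Eq.trans ?_ h2
      refine Finset.sum_congr rfl fun j _ => ?_
      rw [MonoidAlgebra.coeff_smul_apply, Pi.smul_apply]
      congr 1
      conv_lhs => rw [hk]
      exact central_coeff (he j) _ _
    have h3 := congrArg (fun w => φ w i) h1
    simp only [map_sum, map_smul, map_zero, Pi.zero_apply, Finset.sum_apply, Pi.smul_apply] at h3
    rw [Finset.sum_eq_single i] at h3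
    · have h4 : φ (e i) i = 1 := by
        rw [show φ (e i) = Pi.single i 1 from φ.apply_symm_apply _, Pi.single_eq_same]
      rw [h4] at h3
      have := hn i
      have h5 := congrFun (congrFun h3 0) 0
      simpa using h5
    · intro j _ hj
      rw [show φ (e j) = Pi.single j 1 from φ.apply_symm_apply _, Pi.single_eq_of_ne (Ne.symm hj),
        smul_zero]
    · intro h
      exact absurd (Finset.mem_univ _) h
  have : Finite (ConjClasses G) := Quotient.finite _
  have : Fintype (ConjClasses G) := Fintype.ofFinite _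
  have h6 := hli.fintype_card_le_finrank
  rw [Fintype.card_fin, Module.finrank_fintype_fun_eq_card, ← Nat.card_eq_fintype_card] at h6
  exact h6

/-- The degree of an identity of a group algebra. -/
theorem group_lower [Finite G] {d : ℕ} (a : Perm (Fin d) → ℚ) (ha : a ≠ 0)
    (h : ∀ (g : Fin d → G) (w : G), (∑ σ, open Classical in
      if (List.ofFn fun i => g (σ i)).prod = w then a σ else 0) = 0) :
    4 * Nat.card G ≤ Nat.card (ConjClasses G) * d ^ 2 := by
  classical
  have : Fintype G := Fintype.ofFinite G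
  have : NeZero (Nat.card G : ℂ) := ⟨by
    rw [Nat.cast_ne_zero]
    exact Nat.card_pos.ne'⟩
  have : FiniteDimensional ℂ (MonoidAlgebra ℂ G) :=
    Module.Finite.of_basis (MonoidAlgebra.basis G ℂ)
  have : IsSemisimpleRing (MonoidAlgebra ℂ G) := inferInstance
  obtain ⟨r, n, hn, ⟨φ⟩⟩ :=
    IsSemisimpleRing.exists_algEquiv_pi_matrix_of_isAlgClosed ℂ (MonoidAlgebra ℂ G)
  -- the identity holds for the complex group algebra
  let F : MultilinearMap ℂ (fun _ : Fin d => MonoidAlgebra ℂ G) (MonoidAlgebra ℂ G) :=
    ∑ σ : Perm (Fin d), (a σ : ℂ) •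
      (MultilinearMap.mkPiAlgebraFin ℂ d (MonoidAlgebra ℂ G)).domDomCongr σ
  have hF : F = 0 := by
    refine Module.Basis.ext_multilinear (fun _ => MonoidAlgebra.basis G ℂ) fun v => ?_
    rw [zero_apply]
    simp only [F, sum_apply, smul_apply,
      MultilinearMap.domDomCongr_apply, MultilinearMap.mkPiAlgebraFin_apply,
      MonoidAlgebra.basis_apply]
    have h1 : ∀ σ : Perm (Fin d), (List.ofFn fun i => MonoidAlgebra.single (v (σ i)) (1 : ℂ)).prod =
        MonoidAlgebra.single (List.ofFn fun i => v (σ i)).prod 1 := by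
      intro σ
      have h2 := map_list_prod (MonoidAlgebra.of ℂ G) (List.ofFn fun i => v (σ i))
      rw [List.map_ofFn] at h2
      exact h2.symm
    simp only [h1]
    apply MonoidAlgebra.coeff_injective
    ext w
    rw [MonoidAlgebra.coeff_sum, Finsupp.finsetSum_apply, MonoidAlgebra.coeff_zero,
      Finsupp.zero_apply]
    have h3 := h v w
    have h4 := congrArg (fun q : ℚ => (q : ℂ)) h3
    simp only [Rat.cast_zero, Rat.cast_sum] at h4
    refine Eq.trans ?_ h4
    refine Finset.sum_congr rfl fun σ _ => ?_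
    rw [MonoidAlgebra.coeff_smul_apply, MonoidAlgebra.coeff_single, Finsupp.single_apply]
    split_ifs <;> simp
  have hdeg : ∀ i, 2 * n i ≤ d := by
    intro i
    refine matrix_lower (K := ℂ) (fun σ => (a σ : ℂ)) ?_ fun x => ?_
    · obtain ⟨σ, hσ⟩ := Function.ne_iff.mp ha
      refine Function.ne_iff.mpr ⟨σ, ?_⟩
      simpa using hσ
    · let ψ : MonoidAlgebra ℂ G →ₐ[ℂ] Matrix (Fin (n i)) (Fin (n i)) ℂ :=
        (Pi.evalAlgHom ℂ (fun i => Matrix (Fin (n i)) (Fin (n i)) ℂ) i).comp φ.toAlgHom
      let y : Fin d → MonoidAlgebra ℂ G := fun j => φ.symm (Pi.single i (x j))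
      have hy : ∀ j, ψ (y j) = x j := by
        intro j
        change φ (φ.symm (Pi.single i (x j))) i = x j
        rw [φ.apply_symm_apply, Pi.single_eq_same]
      have h1 : ψ (F y) = 0 := by rw [hF, zero_apply, map_zero]
      simp only [F, sum_apply, smul_apply,
        MultilinearMap.domDomCongr_apply, MultilinearMap.mkPiAlgebraFin_apply, map_sum,
        map_smul] at h1
      rw [← h1]
      refine Finset.sum_congr rfl fun σ _ => ?_
      rw [map_list_prod, List.map_ofFn]
      congr 3
      funext j
      exact (hy (σ j)).symm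
  have hdim : Nat.card G = ∑ i, n i ^ 2 := by
    have h1 : Module.finrank ℂ (MonoidAlgebra ℂ G) = Nat.card G := by
      rw [Module.finrank_eq_card_basis (MonoidAlgebra.basis G ℂ), Nat.card_eq_fintype_card]
    rw [← h1, φ.toLinearEquiv.finrank_eq, Module.finrank_pi_fintype]
    refine Finset.sum_congr rfl fun i _ => ?_
    rw [Module.finrank_matrix, Fintype.card_fin, Module.finrank_self, mul_one, sq]
  have h2 : 4 * Nat.card G ≤ r * d ^ 2 := by
    rw [hdim, Finset.mul_sum]
    calc ∑ i, 4 * n i ^ 2 ≤ ∑ _i : Fin r, d ^ 2 := by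
          refine Finset.sum_le_sum fun i _ => ?_
          have := Nat.pow_le_pow_left (hdeg i) 2
          rw [mul_pow] at this
          exact this
      _ = r * d ^ 2 := by simp
  exact h2.trans (Nat.mul_le_mul_right _ (blocks_le n hn φ))

end Grp

/-- The number of conjugacy classes of the symmetric group. -/
lemma card_conjClasses (k : ℕ) : Nat.card (ConjClasses (Perm (Fin k))) ≤ 2 ^ (k - 1) := by
  classical
  have h1 : Nat.card (ConjClasses (Perm (Fin k))) ≤ Nat.card ((Fintype.card (Fin k)).Partition) := by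
    refine Nat.card_le_card_of_injective
      (Quotient.lift (fun σ : Perm (Fin k) => σ.partition) fun a b h =>
        Equiv.Perm.partition_eq_of_isConj.mp h) ?_
    intro a b
    refine Quotient.inductionOn₂ a b fun σ τ h => ?_
    exact Quotient.sound (Equiv.Perm.partition_eq_of_isConj.mpr h)
  refine h1.trans ?_
  rw [Fintype.card_fin, ← composition_card k, Nat.card_eq_fintype_card]
  exact Fintype.card_le_of_surjective _ Nat.Partition.ofComposition_surj

end Pool.Agent.Q20.PI
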