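import Pool.Agent.Q20.PI.Upper
import Pool.Agent.Q20.PI.Lower

/-!
# The gap for polynomial identities
-/

set_option autoImplicit false
set_option linter.unusedSectionVars false
set_option linter.unusedSimpArgs false
set_option backward.isDefEq.respectTransparency false
set_option backward.defeqAttrib.useBackward true

open CategoryTheory Limits MonoidalCategory
open Pool.Agent.Y112.SR Pool.Agent.Y112.KD Pool.Agent.Q20.Kf
open Equiv (Perm)

namespace Pool.Agent.Q20.PI

universe v u

lemma fac_fast (K : ℕ) : ∃ k, 2 ^ k * (K ^ (k + 1)) ^ 2 < 4 * (k + 1).factorial := by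
  refine ⟨4 * (2 * K ^ 2 + 1), ?_⟩
  set k := 4 * (2 * K ^ 2 + 1) with hk
  have h1 := fac_lt (a := 2 * K ^ 2 + 1) (m := k + 1) (by omega) (by omega)
  have h2 : 2 ^ k * (K ^ (k + 1)) ^ 2 ≤ (2 * K ^ 2 + 1) ^ (k + 1 + 1) := by
    calc 2 ^ k * (K ^ (k + 1)) ^ 2 ≤ 2 ^ (k + 1) * (K ^ (k + 1)) ^ 2 :=
          Nat.mul_le_mul_right _ (Nat.pow_le_pow_right (by norm_num) (by omega))
      _ = (2 * K ^ 2) ^ (k + 1) := by rw [mul_pow, ← pow_mul, ← pow_mul, mul_comm 2 (k + 1)]
      _ ≤ (2 * K ^ 2 + 1) ^ (k + 1) := Nat.pow_le_pow_left (by omega) _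
      _ ≤ (2 * K ^ 2 + 1) ^ (k + 1 + 1) := Nat.pow_le_pow_right (by omega) (by omega)
  have h3 : 0 < (k + 1).factorial := Nat.factorial_pos _
  omega

section

variable {C : Type u} [Category.{v} C] [MonoidalCategory C] [SymmetricCategory C]
  [Preadditive C] [Linear ℚ C]

/-- **Gap.** -/
theorem schur_of_identity {X : C} {k d : ℕ} (hlt : 2 ^ k * d ^ 2 < 4 * (k + 1).factorial)
    (h : SatisfiesIdentity (End (tp X (k + 1))) d) : SchurFiniteAt X k := by
  classical
  rw [schurFiniteAt_iff]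
  intro hbot
  obtain ⟨a, ha, hx⟩ := h
  have h1 : 4 * Nat.card (Perm (Fin (k + 1))) ≤
      Nat.card (ConjClasses (Perm (Fin (k + 1)))) * d ^ 2 := by
    refine group_lower a ha fun g w => ?_
    let W : Perm (Fin (k + 1)) → ℚ := fun w =>
      ∑ σ, if (List.ofFn fun i => g (σ i)).prod = w then a σ else 0
    have hW : W ∈ Rel X k := by
      rw [mem_rel]
      have h2 := hx fun i => pa X k (g i)
      have h3 : ∀ σ : Perm (Fin d), (List.ofFn fun i => pa X k (g (σ i))).prod =
          pa X k (List.ofFn fun i => g (σ i)).prod := by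
        intro σ
        rw [map_list_prod, List.map_ofFn]
        rfl
      simp only [h3] at h2
      refine Eq.trans ?_ h2
      simp only [W, Finset.sum_smul]
      rw [Finset.sum_comm]
      refine Finset.sum_congr rfl fun σ _ => ?_
      rw [Finset.sum_eq_single (List.ofFn fun i => g (σ i)).prod]
      · rw [if_pos rfl]
      · intro w _ hw
        rw [if_neg (Ne.symm hw), zero_smul]
      · intro h
        exact absurd (Finset.mem_univ _) h
    rw [hbot, Submodule.mem_bot] at hW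
    have h5 : W w = 0 := congrFun hW w
    convert h5
  have h2 := card_conjClasses (k + 1)
  rw [Nat.card_eq_fintype_card, Fintype.card_perm, Fintype.card_fin] at h1
  have h3 : Nat.card (ConjClasses (Perm (Fin (k + 1)))) * d ^ 2 ≤ 2 ^ k * d ^ 2 :=
    Nat.mul_le_mul_right _ h2
  omega

variable [MonoidalPreadditive C] [MonoidalLinear ℚ C] [RightRigidCategory C]

theorem gap (M : C) : [∃ n, SchurFiniteAt M n,
    ∃ K : ℕ, ∀ k, SatisfiesIdentity (End (tp M (k + 1))) (K ^ (k + 1)),
    ∃ k d, 2 ^ k * d ^ 2 < 4 * (k + 1).factorial ∧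
      SatisfiesIdentity (End (tp M (k + 1))) d].TFAE := by
  tfae_have 1 → 2 := by
    rintro ⟨n, hn⟩
    refine ⟨4 * (n + 1) ^ 2, fun k => identity_of_schur hn (k + 1) _ ?_⟩
    rw [mul_pow, ← pow_mul]
    refine Nat.mul_le_mul_right _ ?_
    calc 4 = 4 ^ 1 := by norm_num
      _ ≤ 4 ^ (k + 1) := Nat.pow_le_pow_right (by norm_num) (by omega)
  tfae_have 2 → 3 := by
    rintro ⟨K, hK⟩
    obtain ⟨k, hk⟩ := fac_fast K
    exact ⟨k, _, hk, hK k⟩
  tfae_have 3 → 1 := by
    rintro ⟨k, d, hlt, h⟩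
    exact ⟨k, schur_of_identity hlt h⟩
  tfae_finish

end

end Pool.Agent.Q20.PI
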