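import Pool.Agent.Q20.PI.Word
import Pool.Agent.Q20.PI.Good

/-!
# The dimension of the span of the permutations of the factors
-/

set_option autoImplicit false
set_option linter.unusedSectionVars false
set_option linter.unusedSimpArgs false
set_option backward.isDefEq.respectTransparency false
set_option backward.defeqAttrib.useBackward true

open CategoryTheory Limits MonoidalCategory
open Pool.Agent.Y112.SR Pool.Agent.Y112.KD Pool.Agent.Q20.Kf
open Equiv (Perm)

namespace Pool.Agent.Q20.PI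

universe v u

/-- The dimension of the span of a finite family. -/
noncomputable def rk {S V : Type*} [AddCommGroup V] [Module ℚ V] (f : S → V) : ℕ :=
  Module.finrank ℚ (Submodule.span ℚ (Set.range f))

lemma rk_comp_le {S V W : Type*} [Finite S] [AddCommGroup V] [Module ℚ V] [AddCommGroup W]
    [Module ℚ W] (L : V →ₗ[ℚ] W) (f : S → V) : rk (fun s => L (f s)) ≤ rk f := by
  have : Module.Finite ℚ (Submodule.span ℚ (Set.range f)) :=
    FiniteDimensional.span_of_finite ℚ (Set.finite_range f)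
  have h1 : Submodule.span ℚ (Set.range fun s => L (f s)) =
      (Submodule.span ℚ (Set.range f)).map L := by
    rw [Submodule.map_span, ← Set.range_comp]
    rfl
  rw [rk, h1]
  exact Submodule.finrank_map_le _ _

lemma exists_finset {S V : Type*} [Finite S] [AddCommGroup V] [Module ℚ V] (f : S → V) :
    ∃ t : Finset V, t.card = rk f ∧
      Submodule.span ℚ (t : Set V) = Submodule.span ℚ (Set.range f) := by
  have : Module.Finite ℚ (Submodule.span ℚ (Set.range f)) :=
    FiniteDimensional.span_of_finite ℚ (Set.finite_range f)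
  obtain ⟨t, -, h1, h2, -⟩ := Submodule.exists_finset_span_eq_linearIndepOn ℚ (Set.range f)
  exact ⟨t, h1, h2⟩

lemma rk_bilin_le {S V W U : Type*} [Finite S] [AddCommGroup V] [Module ℚ V] [AddCommGroup W]
    [Module ℚ W] [AddCommGroup U] [Module ℚ U] (L : V →ₗ[ℚ] W →ₗ[ℚ] U) (f : S → V) (g : S → W) :
    rk (fun s => L (f s) (g s)) ≤ rk f * rk g := by
  classical
  obtain ⟨t, ht, ht'⟩ := exists_finset f
  obtain ⟨r, hr, hr'⟩ := exists_finset g
  have h1 : Submodule.span ℚ (Set.range fun s => L (f s) (g s)) ≤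
      Submodule.span ℚ (((t ×ˢ r).image fun p => L p.1 p.2 : Finset U) : Set U) := by
    have h2 : Submodule.map₂ L (Submodule.span ℚ (t : Set V)) (Submodule.span ℚ (r : Set W)) =
        Submodule.span ℚ (((t ×ˢ r).image fun p => L p.1 p.2 : Finset U) : Set U) := by
      rw [Submodule.map₂_span_span]
      congr 1
      ext u
      simp only [Set.mem_image2, Finset.coe_image, Set.mem_image, Finset.coe_product,
        Set.mem_prod, Prod.exists]
      constructor
      · rintro ⟨a, ha, b, hb, rfl⟩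
        exact ⟨a, b, ⟨ha, hb⟩, rfl⟩
      · rintro ⟨a, b, ⟨ha, hb⟩, rfl⟩
        exact ⟨a, ha, b, hb, rfl⟩
    rw [← h2, Submodule.span_le]
    rintro _ ⟨s, rfl⟩
    refine Submodule.apply_mem_map₂ _ ?_ ?_
    · rw [ht']
      exact Submodule.subset_span ⟨s, rfl⟩
    · rw [hr']
      exact Submodule.subset_span ⟨s, rfl⟩
  have : Module.Finite ℚ (Submodule.span ℚ
      (((t ×ˢ r).image fun p => L p.1 p.2 : Finset U) : Set U)) :=
    FiniteDimensional.span_finset ℚ _
  refine (Submodule.finrank_mono h1).trans ?_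
  refine (finrank_span_finset_le_card (R := ℚ) _).trans ?_
  refine Finset.card_image_le.trans ?_
  rw [Finset.card_product, ht, hr]

lemma rk_le_one {S V : Type*} [AddCommGroup V] [Module ℚ V] (f : S → V) (v : V)
    (h : ∀ s, f s = v) : rk f ≤ 1 := by
  have h1 : Submodule.span ℚ (Set.range f) ≤ Submodule.span ℚ {v} := by
    rw [Submodule.span_le]
    rintro _ ⟨s, rfl⟩
    rw [h s]
    exact Submodule.subset_span rfl
  refine (Submodule.finrank_mono h1).trans ?_
  have h2 := finrank_span_finset_le_card (R := ℚ) ({v} : Finset V)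
  rw [Finset.coe_singleton, Finset.card_singleton] at h2
  exact h2

section

variable {C : Type u} [Category.{v} C] [MonoidalCategory C] [SymmetricCategory C]
  [Preadditive C] [Linear ℚ C] [MonoidalPreadditive C] [MonoidalLinear ℚ C]

/-- The span of the permutations. -/
noncomputable def rkp (X : C) (m : ℕ) : ℕ :=
  rk fun σ : Perm (Fin (m + 1)) => (pa X m σ : tp X (m + 1) ⟶ tp X (m + 1))

lemma via_castLE {n m : ℕ} (h : n + 1 ≤ m + 1) (h' : n + 1 ≤ m + 2) (τ : Perm (Fin (n + 1))) :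
    Equiv.Perm.viaFintypeEmbedding τ (Fin.castLEEmb h') =
      up (m + 1) (Equiv.Perm.viaFintypeEmbedding τ (Fin.castLEEmb h)) := by
  apply perm_ext_last
  · intro i
    rw [up_castSucc]
    by_cases hi : i ∈ Set.range (Fin.castLEEmb h)
    · obtain ⟨a, rfl⟩ := hi
      have h1 : (Fin.castLEEmb h a).castSucc = Fin.castLEEmb h' a := rfl
      rw [h1, Equiv.Perm.viaFintypeEmbedding_apply_image,
        Equiv.Perm.viaFintypeEmbedding_apply_image]
      rfl
    · rw [Equiv.Perm.viaFintypeEmbedding_apply_notMem_range _ _ hi,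
        Equiv.Perm.viaFintypeEmbedding_apply_notMem_range]
      rintro ⟨a, ha⟩
      apply hi
      refine ⟨a, Fin.castSucc_injective _ ?_⟩
      exact ha
  · rw [up_last, Equiv.Perm.viaFintypeEmbedding_apply_notMem_range]
    rintro ⟨a, ha⟩
    have := congrArg Fin.val ha
    simp at this
    omega

lemma rel_first {X : C} {n : ℕ} {z : Perm (Fin (n + 1)) → ℚ} (hz : z ∈ Rel X n) :
    ∀ (d : ℕ) (h : n + 1 ≤ n + d + 1), ∑ τ, z τ •
      (pa X (n + d) (Equiv.Perm.viaFintypeEmbedding τ (Fin.castLEEmb h)) :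
        tp X (n + d + 1) ⟶ tp X (n + d + 1)) = 0
  | 0, h => by
    rw [mem_rel] at hz
    rw [← hz]
    refine Finset.sum_congr rfl fun τ _ => ?_
    have h1 : Equiv.Perm.viaFintypeEmbedding τ (Fin.castLEEmb h) = τ := by
      ext i
      exact congrArg Fin.val
        (Equiv.Perm.viaFintypeEmbedding_apply_image τ (Fin.castLEEmb h) i)
    rw [h1]
    rfl
  | d + 1, h => by
    have ih := rel_first hz d (by omega)
    have h2 : ∑ τ, z τ • (pa X (n + (d + 1))
        (Equiv.Perm.viaFintypeEmbedding τ (Fin.castLEEmb h)) :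
        tp X (n + (d + 1) + 1) ⟶ tp X (n + (d + 1) + 1)) =
        (∑ τ, z τ • (pa X (n + d) (Equiv.Perm.viaFintypeEmbedding τ
          (Fin.castLEEmb (by omega : n + 1 ≤ n + d + 1))) :
          tp X (n + d + 1) ⟶ tp X (n + d + 1))) ▷ X := by
      refine Eq.trans ?_ ((tensorRight X).map_sum _ _).symm
      refine Finset.sum_congr rfl fun τ _ => ?_
      have h3 := via_castLE (by omega : n + 1 ≤ n + d + 1) h τ
      have h4 : (pa X (n + (d + 1)) (Equiv.Perm.viaFintypeEmbedding τ (Fin.castLEEmb h)) :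
        tp X (n + (d + 1) + 1) ⟶ tp X (n + (d + 1) + 1)) = (pa X (n + d)
          (Equiv.Perm.viaFintypeEmbedding τ
          (Fin.castLEEmb (by omega : n + 1 ≤ n + d + 1))) :
          tp X (n + d + 1) ⟶ tp X (n + d + 1)) ▷ X := by
        rw [← pa_up, ← h3]
        rfl
      rw [h4]
      exact (MonoidalLinear.smul_whiskerRight _ _ _).symm
    rw [h2, ih]
    exact (tensorRight X).map_zero _ _

lemma rel_all {X : C} {n : ℕ} {z : Perm (Fin (n + 1)) → ℚ} (hz : z ∈ Rel X n) {m : ℕ}
    (π : Perm (Fin (m + 1))) (e : Fin (n + 1) ↪ Fin (m + 1)) :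
    ∑ τ, z τ • (pa X m (π * Equiv.Perm.viaFintypeEmbedding τ e) :
      tp X (m + 1) ⟶ tp X (m + 1)) = 0 := by
  have hnm : n + 1 ≤ m + 1 := by
    simpa using Fintype.card_le_of_injective e e.injective
  obtain ⟨d, rfl⟩ := Nat.exists_eq_add_of_le (by omega : n ≤ m)
  obtain ⟨g, hg⟩ := Equiv.Perm.exists_extending_pair (Fin.castLEEmb hnm) e
    (Fin.castLEEmb hnm).injective e.injective
  have h1 : ∀ τ : Perm (Fin (n + 1)), Equiv.Perm.viaFintypeEmbedding τ e =
      g * Equiv.Perm.viaFintypeEmbedding τ (Fin.castLEEmb hnm) * g⁻¹ := by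
    intro τ
    rw [eq_mul_inv_iff_mul_eq]
    ext i
    congr 1
    rw [Equiv.Perm.mul_apply, Equiv.Perm.mul_apply]
    by_cases hi : i ∈ Set.range (Fin.castLEEmb hnm)
    · obtain ⟨a, rfl⟩ := hi
      rw [Equiv.Perm.viaFintypeEmbedding_apply_image, hg, hg,
        Equiv.Perm.viaFintypeEmbedding_apply_image]
    · rw [Equiv.Perm.viaFintypeEmbedding_apply_notMem_range _ _ hi,
        Equiv.Perm.viaFintypeEmbedding_apply_notMem_range]
      rintro ⟨a, ha⟩
      apply hi
      refine ⟨a, g.injective ?_⟩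
      rw [hg, ha]
  have h2 : ∀ τ : Perm (Fin (n + 1)),
      (pa X (n + d) (π * Equiv.Perm.viaFintypeEmbedding τ e) :
        tp X (n + d + 1) ⟶ tp X (n + d + 1)) =
      (pa X (n + d) g⁻¹ : tp X (n + d + 1) ⟶ _) ≫
        (pa X (n + d) (Equiv.Perm.viaFintypeEmbedding τ (Fin.castLEEmb hnm)) :
          tp X (n + d + 1) ⟶ _) ≫ (pa X (n + d) (π * g) : tp X (n + d + 1) ⟶ _) := by
    intro τ
    rw [h1, ← mul_assoc, ← mul_assoc, map_mul, map_mul _ (π * g), End.mul_def, End.mul_def]
  have h3 : ∑ τ, z τ • (pa X (n + d) (π * Equiv.Perm.viaFintypeEmbedding τ e) :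
      tp X (n + d + 1) ⟶ tp X (n + d + 1)) =
      (pa X (n + d) g⁻¹ : tp X (n + d + 1) ⟶ _) ≫
        (∑ τ, z τ • (pa X (n + d) (Equiv.Perm.viaFintypeEmbedding τ (Fin.castLEEmb hnm)) :
          tp X (n + d + 1) ⟶ tp X (n + d + 1))) ≫
          (pa X (n + d) (π * g) : tp X (n + d + 1) ⟶ _) := by
    rw [Preadditive.sum_comp, Preadditive.comp_sum]
    refine Finset.sum_congr rfl fun τ _ => ?_
    rw [h2, Linear.smul_comp, Linear.comp_smul]
  rw [h3, rel_first hz d hnm, zero_comp, comp_zero]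

/-- The dimension of the span of the permutations of the factors of a Schur-finite object. -/
theorem rkp_le {X : C} {n : ℕ} (h : SchurFiniteAt X n) (m : ℕ) : rkp X m ≤ n ^ (2 * (m + 1)) := by
  rw [schurFiniteAt_iff, Submodule.ne_bot_iff] at h
  obtain ⟨z, hz, hz0⟩ := h
  obtain ⟨g, hg⟩ := Function.ne_iff.mp hz0
  have h1 := rel_translate hz g 1
  exact finrank_span (N := n) (m := m + 1) (fun h => z (g * h * 1)) (by simpa using hg)
    (fun σ => (pa X m σ : tp X (m + 1) ⟶ tp X (m + 1))) fun π e => rel_all h1 π e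

lemma zip_inv' (A B : C) (n : ℕ) : ∃ u : tp A n ⊗ tp B n ⟶ tp (A ⊗ B) n,
    zip A B n ≫ u = 𝟙 _ := by
  induction n with
  | zero => exact ⟨(λ_ (𝟙_ C)).hom, by simp [zip]⟩
  | succ n ih =>
    obtain ⟨u, hu⟩ := ih
    refine ⟨tensorδ (tp A n) (tp B n) A B ≫ u ▷ (A ⊗ B), ?_⟩
    rw [zip_succ, Category.assoc, tensorμ_tensorδ_assoc, ← comp_whiskerRight, hu, id_whiskerRight]

/-- The tensor product of morphisms as a bilinear map. -/
noncomputable def tenL (P Q : C) : (P ⟶ P) →ₗ[ℚ] (Q ⟶ Q) →ₗ[ℚ] (P ⊗ Q ⟶ P ⊗ Q) :=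
  LinearMap.mk₂ ℚ (fun f g => f ⊗ₘ g)
    (fun f f' g => by
      rw [MonoidalCategory.tensorHom_def, MonoidalPreadditive.add_whiskerRight,
        Preadditive.add_comp, ← MonoidalCategory.tensorHom_def, ← MonoidalCategory.tensorHom_def])
    (fun c f g => by
      rw [MonoidalCategory.tensorHom_def, MonoidalLinear.smul_whiskerRight,
        Linear.smul_comp, ← MonoidalCategory.tensorHom_def])
    (fun f g g' => by
      rw [MonoidalCategory.tensorHom_def, MonoidalPreadditive.whiskerLeft_add,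
        Preadditive.comp_add, ← MonoidalCategory.tensorHom_def, ← MonoidalCategory.tensorHom_def])
    (fun c f g => by
      rw [MonoidalCategory.tensorHom_def, MonoidalLinear.whiskerLeft_smul,
        Linear.comp_smul, ← MonoidalCategory.tensorHom_def])

/-- Composition with fixed morphisms. -/
noncomputable def conL {P Q : C} (a : P ⟶ Q) (b : Q ⟶ P) : (Q ⟶ Q) →ₗ[ℚ] (P ⟶ P) where
  toFun f := a ≫ f ≫ b
  map_add' f g := by rw [Preadditive.add_comp, Preadditive.comp_add]
  map_smul' c f := by rw [Linear.smul_comp, Linear.comp_smul, RingHom.id_apply]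

lemma rkp_tensor (A B : C) (m : ℕ) : rkp (A ⊗ B) m ≤ rkp A m * rkp B m := by
  obtain ⟨u, hu⟩ := zip_inv' A B (m + 1)
  have h1 : (fun σ : Perm (Fin (m + 1)) => (pa (A ⊗ B) m σ :
      tp (A ⊗ B) (m + 1) ⟶ tp (A ⊗ B) (m + 1))) = fun σ => conL (zip A B (m + 1)) u
        (tenL _ _ (pa A m σ : tp A (m + 1) ⟶ tp A (m + 1))
          (pa B m σ : tp B (m + 1) ⟶ tp B (m + 1))) := by
    funext σ
    have h2 := perm_zip (pa_spec (A ⊗ B) m) (pa_spec A m) (pa_spec B m) σ
    have h3 : (pa (A ⊗ B) m σ : tp (A ⊗ B) (m + 1) ⟶ tp (A ⊗ B) (m + 1)) =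
        zip A B (m + 1) ≫ ((pa A m σ : tp A (m + 1) ⟶ tp A (m + 1)) ⊗ₘ
          (pa B m σ : tp B (m + 1) ⟶ tp B (m + 1))) ≫ u := by
      rw [← Category.assoc, ← h2, Category.assoc, hu, Category.comp_id]
    exact h3
  rw [rkp, h1]
  refine (rk_comp_le _ _).trans ?_
  exact rk_bilin_le _ _ _

lemma exch_unit (n i : ℕ) : exch (𝟙_ C) n i = 𝟙 _ := by
  induction n with
  | zero => rfl
  | succ n ih =>
    by_cases h : i = n
    · subst h
      rw [exch_last, sw, braiding_tensorUnit_left, unitors_equal]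
      simp
    · rw [exch_lift _ n i h, ih, id_whiskerRight]

lemma pa_unit (m : ℕ) (σ : Perm (Fin (m + 1))) : pa (𝟙_ C) m σ = 1 := by
  induction mem_gen σ using Submonoid.closure_induction with
  | mem y hy =>
    obtain ⟨i, rfl⟩ := hy
    simp only
    rw [pa_spec _ m i]
    exact exch_unit m i
  | one => rw [map_one]
  | mul a b _ _ ha hb => rw [map_mul, ha, hb, mul_one]

lemma rkp_pow (X : C) (m D : ℕ) (h : rkp X m ≤ D) : ∀ k : ℕ, rkp (tp X k) m ≤ D ^ k
  | 0 => by
    rw [pow_zero]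
    exact rk_le_one _ (𝟙 _) fun σ => pa_unit m σ
  | k + 1 => by
    rw [pow_succ]
    exact (rkp_tensor _ _ _).trans (Nat.mul_le_mul (rkp_pow X m D h k) h)

end

end Pool.Agent.Q20.PI
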