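import Pool.Agent.Q20.PI.Rank

/-!
# Polynomial identities for the endomorphisms of a Schur-finite object
-/

set_option autoImplicit false
set_option linter.unusedSectionVars false
set_option linter.unusedSimpArgs false
set_option backward.isDefEq.respectTransparency false
set_option backward.defeqAttrib.useBackward true

open CategoryTheory Limits MonoidalCategory
open Pool.Agent.Y112.SR Pool.Agent.Y112.KD Pool.Agent.Q20.Kf
open Equiv (Perm)

namespace Pool.Agent.Q20.PI

universe v u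

/-- The ring `A` satisfies a multilinear polynomial identity of degree `d`: there are rational
numbers `a σ`, not all zero, such that the sum of the products
`a σ • (x (σ 0) * x (σ 1) * ⋯ * x (σ (d - 1)))` over all permutations `σ` vanishes for all
`x 0, …, x (d - 1)` in `A`. -/
def SatisfiesIdentity (A : Type*) [Ring A] [Module ℚ A] (d : ℕ) : Prop :=
  ∃ a : Perm (Fin d) → ℚ, a ≠ 0 ∧
    ∀ x : Fin d → A, ∑ σ, a σ • (List.ofFn fun i => x (σ i)).prod = 0

/-- The word of a permutation. -/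
def lst {m : ℕ} (σ : Perm (Fin m)) : List (Fin (m + 1)) :=
  (List.ofFn fun i => (σ i).succ).reverse ++ [0]

lemma lst_rev {m : ℕ} (σ : Perm (Fin m)) :
    (lst σ).reverse = 0 :: List.ofFn fun i => (σ i).succ := by
  simp [lst]

lemma lst_nodup {m : ℕ} (σ : Perm (Fin m)) : (lst σ).Nodup := by
  rw [← List.nodup_reverse, lst_rev, List.nodup_cons]
  constructor
  · rw [List.mem_ofFn]
    rintro ⟨i, hi⟩
    exact Fin.succ_ne_zero _ hi
  · rw [List.nodup_ofFn]
    exact fun i j h => σ.injective (Fin.succ_injective _ h)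

lemma lst_mem {m : ℕ} (σ : Perm (Fin m)) (i : Fin (m + 1)) : i ∈ lst σ := by
  rw [← List.mem_reverse, lst_rev, List.mem_cons]
  induction i using Fin.cases with
  | zero => exact Or.inl rfl
  | succ i =>
    refine Or.inr ?_
    rw [List.mem_ofFn]
    exact ⟨σ.symm i, by simp⟩

lemma lst_last {m : ℕ} (σ : Perm (Fin m)) : (lst σ).getLast? = some 0 := by
  simp [lst]

lemma lst_length {m : ℕ} (σ : Perm (Fin m)) : (lst σ).length = m + 1 := by
  simp [lst]

lemma lst_inj {m : ℕ} {σ τ : Perm (Fin m)} (h : (lst σ).formPerm = (lst τ).formPerm) :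
    σ = τ := by
  have r1 : ∀ σ : Perm (Fin m), lst σ ~r (0 :: (List.ofFn fun i => (σ i).succ).reverse) := by
    intro σ
    exact List.isRotated_append
  have hn : ∀ σ : Perm (Fin m), (0 :: (List.ofFn fun i => (σ i).succ).reverse).Nodup :=
    fun σ => (r1 σ).nodup_iff.mp (lst_nodup σ)
  rw [List.formPerm_eq_of_isRotated (lst_nodup σ) (r1 σ),
    List.formPerm_eq_of_isRotated (lst_nodup τ) (r1 τ)] at h
  have h1 : (0 :: (List.ofFn fun i => (σ i).succ).reverse) =
      (0 :: (List.ofFn fun i => (τ i).succ).reverse) := by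
    refine List.ext_getElem (by simp) fun i hi hi' => ?_
    have h2 := List.formPerm_pow_apply_head 0 _ (hn σ) i
    have h3 := List.formPerm_pow_apply_head 0 _ (hn τ) i
    rw [h, h3] at h2
    simp only [Nat.mod_eq_of_lt hi, Nat.mod_eq_of_lt hi'] at h2
    exact h2.symm
  rw [List.cons.injEq] at h1
  have h2 := List.reverse_injective h1.2
  rw [List.ofFn_inj] at h2
  exact Equiv.ext fun i => Fin.succ_injective _ (congrFun h2 i)

section

variable {C : Type u} [Category.{v} C] [MonoidalCategory C] [SymmetricCategory C]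
  [Preadditive C] [Linear ℚ C] [MonoidalPreadditive C] [MonoidalLinear ℚ C]
  [RightRigidCategory C]

theorem identity_of_rk {Y : C} {m : ℕ} (h : rkp Y m < m.factorial) :
    SatisfiesIdentity (End Y) m := by
  classical
  let f : Perm (Fin m) → (tp Y (m + 1) ⟶ tp Y (m + 1)) := fun σ =>
    (pa Y m (lst σ).formPerm : tp Y (m + 1) ⟶ tp Y (m + 1))
  have hfin : Module.Finite ℚ (Submodule.span ℚ (Set.range fun σ : Perm (Fin (m + 1)) =>
      (pa Y m σ : tp Y (m + 1) ⟶ tp Y (m + 1)))) :=
    FiniteDimensional.span_of_finite ℚ (Set.finite_range _)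
  have hni : ¬ LinearIndependent ℚ f := by
    intro hi
    let g : Perm (Fin m) → Submodule.span ℚ (Set.range fun σ : Perm (Fin (m + 1)) =>
      (pa Y m σ : tp Y (m + 1) ⟶ tp Y (m + 1))) := fun σ =>
        ⟨f σ, Submodule.subset_span ⟨_, rfl⟩⟩
    have hg : LinearIndependent ℚ g :=
      LinearIndependent.of_comp (Submodule.subtype _) hi
    have h1 := hg.fintype_card_le_finrank
    rw [Fintype.card_perm, Fintype.card_fin] at h1
    exact absurd h (not_lt.mpr h1)
  rw [Fintype.not_linearIndependent_iff] at hni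
  obtain ⟨a, ha, i, hi⟩ := hni
  refine ⟨a, Function.ne_iff.mpr ⟨i, hi⟩, fun x => ?_⟩
  let x' : Fin (m + 1) → End Y := Fin.cons 1 x
  have h1 : cc Y m ((∑ σ, a σ • f σ) ≫ Dg (m + 1) (fun i => (x' i : Y ⟶ Y))) = 0 := by
    rw [ha, zero_comp, map_zero]
  rw [Preadditive.sum_comp, map_sum] at h1
  rw [← h1]
  refine Finset.sum_congr rfl fun σ _ => ?_
  rw [Linear.smul_comp, map_smul, cc_word m (lst σ) (lst_nodup σ) (lst_mem σ) (lst_last σ),
    ← List.map_reverse, lst_rev, List.map_cons, List.prod_cons, List.map_ofFn]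
  have e1 : x' 0 = 1 := rfl
  have e2 : (x' ∘ fun i => (σ i).succ) = fun i => x (σ i) := by
    funext i
    rfl
  rw [e1, one_mul, e2]

lemma fac_lt {a m : ℕ} (ha : 1 ≤ a) (h : 4 * a ≤ m) : a ^ (m + 1) < m.factorial := by
  induction m, h using Nat.le_induction with
  | base =>
    have h1 := Real.pow_div_factorial_le_exp (x := ((4 * a : ℕ) : ℝ)) (by positivity) (4 * a)
    have h2 : Real.exp ((4 * a : ℕ) : ℝ) < 55 ^ a := by
      have h3 : Real.exp ((4 * a : ℕ) : ℝ) = (Real.exp 1 ^ 4) ^ a := by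
        rw [← pow_mul, ← Real.exp_nat_mul, mul_one]
      rw [h3]
      refine pow_lt_pow_left₀ ?_ (by positivity) (by omega)
      have h4 := Real.exp_one_lt_d9
      have h5 := Real.exp_pos 1
      calc Real.exp 1 ^ 4 < 2.7182818286 ^ 4 := by
            exact pow_lt_pow_left₀ h4 h5.le (by norm_num)
        _ < 55 := by norm_num
    have hf : (0 : ℝ) < ((4 * a).factorial : ℝ) := by positivity
    rw [div_le_iff₀ hf] at h1
    have h6 : (((4 * a : ℕ) : ℝ)) ^ (4 * a) = 256 ^ a * (a : ℝ) ^ (4 * a) := by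
      push_cast
      rw [mul_pow, pow_mul (4 : ℝ) 4 a]
      norm_num
    rw [h6] at h1
    have h7 : (256 : ℝ) ^ a * (a : ℝ) ^ (4 * a) < 55 ^ a * ((4 * a).factorial : ℝ) :=
      lt_of_le_of_lt h1 (mul_lt_mul_of_pos_right h2 hf)
    have h8 : (55 : ℝ) ^ a * ((a : ℝ) * (a : ℝ) ^ (4 * a)) ≤ 256 ^ a * (a : ℝ) ^ (4 * a) := by
      have h9 : (a : ℝ) ≤ 4 ^ a := by
        have := (Nat.lt_pow_self (by norm_num : 1 < 4) : a < 4 ^ a).le
        exact_mod_cast this
      have h10 : (55 : ℝ) ^ a * 4 ^ a ≤ 256 ^ a := by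
        rw [← mul_pow]
        exact pow_le_pow_left₀ (by norm_num) (by norm_num) _
      have h11 : (0 : ℝ) ≤ (a : ℝ) ^ (4 * a) := by positivity
      calc (55 : ℝ) ^ a * ((a : ℝ) * (a : ℝ) ^ (4 * a))
          ≤ (55 : ℝ) ^ a * (4 ^ a * (a : ℝ) ^ (4 * a)) := by gcongr
        _ = (55 ^ a * 4 ^ a) * (a : ℝ) ^ (4 * a) := by ring
        _ ≤ 256 ^ a * (a : ℝ) ^ (4 * a) := by gcongr
    have h12 : (a : ℝ) * (a : ℝ) ^ (4 * a) < ((4 * a).factorial : ℝ) := by
      have h13 : (0 : ℝ) < 55 ^ a := by positivity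
      exact lt_of_mul_lt_mul_left (lt_of_le_of_lt h8 h7) h13.le
    have h14 : a * a ^ (4 * a) < (4 * a).factorial := by exact_mod_cast h12
    rw [pow_succ, mul_comm]
    exact h14
  | succ m hm ih =>
    rw [Nat.factorial_succ, pow_succ, mul_comm]
    exact Nat.mul_lt_mul_of_le_of_lt (by omega) ih (by omega)

/-- **Identities.** -/
theorem identity_of_schur {X : C} {n : ℕ} (h : SchurFiniteAt X n) (k m : ℕ)
    (hm : 4 * (n + 1) ^ (2 * k) ≤ m) : SatisfiesIdentity (End (tp X k)) m := by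
  apply identity_of_rk
  have h1 := rkp_pow X m _ (rkp_le h m) k
  refine lt_of_le_of_lt h1 (lt_of_le_of_lt ?_ (fac_lt (a := (n + 1) ^ (2 * k))
    (Nat.one_le_pow _ _ (by omega)) hm))
  rw [← pow_mul, ← pow_mul]
  have e : 2 * (m + 1) * k = 2 * k * (m + 1) := by ring
  rw [e]
  exact Nat.pow_le_pow_left (by omega) _

end

end Pool.Agent.Q20.PI
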