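import Pool.Agent.Q20.PI.Cyc

/-!
# The contraction of a cyclic permutation is a product
-/

set_option autoImplicit false
set_option linter.unusedSectionVars false
set_option linter.unusedSimpArgs false
set_option backward.isDefEq.respectTransparency false
set_option backward.defeqAttrib.useBackward true

open CategoryTheory Limits MonoidalCategory
open Pool.Agent.Y112.SR Pool.Agent.Y112.KD Pool.Agent.Q20.Kf
open Equiv (Perm)

namespace Pool.Agent.Q20.PI

universe v u

lemma formPerm_map_castSucc {m : ℕ} : ∀ l : List (Fin m),
    (l.map Fin.castSucc).formPerm = up m l.formPerm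
  | [] => by simp
  | [a] => by simp
  | a :: b :: l => by
    have h := formPerm_map_castSucc (b :: l)
    simp only [List.map_cons, List.formPerm_cons_cons] at h ⊢
    rw [h, map_mul, up_swap]

lemma exists_map_castSucc {m : ℕ} : ∀ l : List (Fin (m + 1)), Fin.last m ∉ l →
    ∃ l' : List (Fin m), l'.map Fin.castSucc = l
  | [], _ => ⟨[], rfl⟩
  | a :: l, h => by
    obtain ⟨l', hl'⟩ := exists_map_castSucc l (fun h' => h (List.mem_cons_of_mem _ h'))
    have ha : a ≠ Fin.last m := fun h' => h (by rw [← h']; exact List.mem_cons_self)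
    obtain ⟨a', rfl⟩ := Fin.exists_castSucc_eq.mpr ha
    exact ⟨a' :: l', by rw [List.map_cons, hl']⟩

section

variable {C : Type u} [Category.{v} C] [MonoidalCategory C] [SymmetricCategory C]
  [Preadditive C] [Linear ℚ C] [MonoidalPreadditive C] [MonoidalLinear ℚ C]
  [RightRigidCategory C]

lemma cc_step {X : C} (m : ℕ) (P : Perm (Fin (m + 1))) (j : Fin (m + 1))
    (x : Fin (m + 2) → (X ⟶ X)) :
    cc X (m + 1) ((pa X (m + 1) (Equiv.swap (Fin.last (m + 1)) j.castSucc * up (m + 1) P) :
      tp X (m + 2) ⟶ tp X (m + 2)) ≫ Dg (m + 2) x) =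
    cc X m ((pa X m P : tp X (m + 1) ⟶ tp X (m + 1)) ≫
      Dg (m + 1) (Function.update (fun i => x i.castSucc) j
        (x (Fin.last (m + 1)) ≫ x j.castSucc))) := by
  have h1 : (pa X (m + 1) (Equiv.swap (Fin.last (m + 1)) j.castSucc * up (m + 1) P) :
      tp X (m + 2) ⟶ tp X (m + 2)) ≫ Dg (m + 2) x =
      ((pa X m P : tp X (m + 1) ⟶ tp X (m + 1)) ▷ X) ≫
        ((pa X (m + 1) (Equiv.swap j.castSucc (Fin.last (m + 1))) :
      tp X (m + 1) ⊗ X ⟶ tp X (m + 1) ⊗ X) ≫ Dg (m + 2) x) := by
    rw [Equiv.swap_comm, map_mul, End.mul_def, pa_up, Category.assoc]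
  rw [h1]
  change cc X m (ptr _) = _
  rw [ptr_comp_a, ptr_swap]

/-- The contraction of a cycle decorated by endomorphisms is their product. -/
theorem cc_word {X : C} : ∀ (m : ℕ) (l : List (Fin (m + 1))), l.Nodup → (∀ i, i ∈ l) →
    l.getLast? = some 0 → ∀ x : Fin (m + 1) → End X,
    cc X m ((pa X m l.formPerm : tp X (m + 1) ⟶ tp X (m + 1)) ≫
      Dg (m + 1) (fun i => (x i : X ⟶ X))) = ((l.map x).reverse).prod
  | 0, l, hl, hmem, hlast, x => by
    have h1 : l = [0] := by
      have h2 : l.length ≤ 1 := by
        have := hl.length_le_card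
        simpa using this
      match l, h2, hmem 0 with
      | [], _, h => simp at h
      | [a], _, _ => exact congrArg (fun c => [c]) (Fin.ext (by omega))
      | a :: b :: l, h, _ => simp at h
    subst h1
    simp only [List.formPerm_singleton, map_one, List.map_cons, List.map_nil, List.reverse_cons,
      List.reverse_nil, List.nil_append, List.prod_singleton]
    change (λ_ X).inv ≫ (𝟙 _ ≫ Dg 1 (fun i => (x i : X ⟶ X))) ≫ (λ_ X).hom = (x 0 : X ⟶ X)
    rw [Category.id_comp]
    change (λ_ X).inv ≫ (𝟙 _ ⊗ₘ (x (Fin.last 0) : X ⟶ X)) ≫ (λ_ X).hom = (x 0 : X ⟶ X)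
    simp
  | m + 1, l, hl, hmem, hlast, x => by
    obtain ⟨a, t, hat⟩ := List.append_of_mem (hmem (Fin.last (m + 1)))
    have ht : t ≠ [] := by
      rintro rfl
      rw [hat] at hlast
      simp only [List.getLast?_append, List.getLast?_singleton, Option.some_or] at hlast
      have := Option.some.inj hlast
      have := congrArg Fin.val this
      simp at this
    obtain ⟨j', b, rfl⟩ := List.exists_cons_of_ne_nil ht
    subst hat
    have hnd := hl
    rw [List.nodup_append] at hnd
    obtain ⟨hna, hnt, hdis⟩ := hnd
    rw [List.nodup_cons] at hnt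
    obtain ⟨hlt, hnt'⟩ := hnt
    have hla : Fin.last (m + 1) ∉ a := fun h => hdis _ h _ List.mem_cons_self rfl
    have hj' : j' ≠ Fin.last (m + 1) := fun h => hlt (by rw [h]; exact List.mem_cons_self)
    have hlb : Fin.last (m + 1) ∉ b := fun h => hlt (List.mem_cons_of_mem _ h)
    obtain ⟨a', rfl⟩ := exists_map_castSucc a hla
    obtain ⟨b', rfl⟩ := exists_map_castSucc b hlb
    obtain ⟨j, rfl⟩ := Fin.exists_castSucc_eq.mpr hj'
    have hrem : List.map Fin.castSucc a' ++ j.castSucc :: List.map Fin.castSucc b' =
        List.map Fin.castSucc (a' ++ j :: b') := by simp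
    have hsub : List.Sublist (List.map Fin.castSucc a' ++ j.castSucc :: List.map Fin.castSucc b')
        (List.map Fin.castSucc a' ++ Fin.last (m + 1) :: j.castSucc ::
          List.map Fin.castSucc b') := by
      refine List.Sublist.append_left ?_ _
      exact List.sublist_cons_self _ _
    have hnd1 : (List.map Fin.castSucc a' ++ j.castSucc :: List.map Fin.castSucc b').Nodup :=
      hl.sublist hsub
    have hnd2 : (a' ++ j :: b').Nodup := by
      rw [hrem] at hnd1
      exact List.Nodup.of_map _ hnd1
    have hform : (List.map Fin.castSucc a' ++ Fin.last (m + 1) :: j.castSucc ::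
        List.map Fin.castSucc b').formPerm =
        Equiv.swap (Fin.last (m + 1)) j.castSucc * up (m + 1) (a' ++ j :: b').formPerm := by
      have r1 : (List.map Fin.castSucc a' ++ Fin.last (m + 1) :: j.castSucc ::
          List.map Fin.castSucc b') ~r (Fin.last (m + 1) :: j.castSucc ::
          List.map Fin.castSucc b' ++ List.map Fin.castSucc a') :=
        List.isRotated_append
      have r2 : (List.map Fin.castSucc a' ++ j.castSucc :: List.map Fin.castSucc b') ~r
          (j.castSucc :: List.map Fin.castSucc b' ++ List.map Fin.castSucc a') :=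
        List.isRotated_append
      rw [List.formPerm_eq_of_isRotated hl r1]
      have h3 : Fin.last (m + 1) :: j.castSucc :: List.map Fin.castSucc b' ++
          List.map Fin.castSucc a' = Fin.last (m + 1) :: j.castSucc ::
          (List.map Fin.castSucc b' ++ List.map Fin.castSucc a') := rfl
      have h4 : j.castSucc :: List.map Fin.castSucc b' ++
          List.map Fin.castSucc a' = j.castSucc ::
          (List.map Fin.castSucc b' ++ List.map Fin.castSucc a') := rfl
      rw [h3, List.formPerm_cons_cons, ← h4, ← List.formPerm_eq_of_isRotated hnd1 r2, hrem,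
        formPerm_map_castSucc]
    rw [hform, cc_step]
    have hmem' : ∀ i, i ∈ a' ++ j :: b' := by
      intro i
      have h5 := hmem i.castSucc
      rw [List.mem_append, List.mem_cons] at h5
      have h6 : i.castSucc ≠ Fin.last (m + 1) := (Fin.castSucc_lt_last i).ne
      have h7 : i.castSucc ∈ List.map Fin.castSucc (a' ++ j :: b') := by
        rw [← hrem, List.mem_append]
        rcases h5 with h5 | h5 | h5
        · exact Or.inl h5
        · exact absurd h5 h6
        · exact Or.inr h5
      rw [List.mem_map] at h7
      obtain ⟨k, hk, hk'⟩ := h7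
      rwa [← Fin.castSucc_injective _ hk']
    have hlast' : (a' ++ j :: b').getLast? = some 0 := by
      have h8 : (List.map Fin.castSucc a' ++ Fin.last (m + 1) :: j.castSucc ::
          List.map Fin.castSucc b').getLast? =
          ((a' ++ j :: b').getLast?).map Fin.castSucc := by
        rw [← List.getLast?_map, ← hrem]
        simp [List.getLast?_append, List.getLast?_cons]
      rw [h8] at hlast
      rw [Option.map_eq_some_iff] at hlast
      obtain ⟨k, hk, hk'⟩ := hlast
      rw [hk]
      congr 1
      exact Fin.castSucc_injective _ hk'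
    have hup : (Function.update (fun i : Fin (m + 1) => (x i.castSucc : X ⟶ X)) j
        ((x (Fin.last (m + 1)) : X ⟶ X) ≫ (x j.castSucc : X ⟶ X))) = fun i =>
        (Function.update (fun i : Fin (m + 1) => x i.castSucc) j
          (x j.castSucc * x (Fin.last (m + 1))) i : X ⟶ X) := rfl
    rw [hup, cc_word m (a' ++ j :: b') hnd2 hmem' hlast']
    have hja : j ∉ a' := by
      rw [List.nodup_append] at hnd2
      exact fun h => hnd2.2.2 _ h _ List.mem_cons_self rfl
    have hjb : j ∉ b' := by
      rw [List.nodup_append] at hnd2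
      exact (List.nodup_cons.mp hnd2.2.1).1
    have e1 : ∀ c : List (Fin (m + 1)), j ∉ c → c.map (Function.update
        (fun i : Fin (m + 1) => x i.castSucc) j (x j.castSucc * x (Fin.last (m + 1)))) =
          (c.map Fin.castSucc).map x := by
      intro c hc
      rw [List.map_map]
      refine List.map_congr_left fun i hi => ?_
      have : i ≠ j := fun h => hc (h ▸ hi)
      rw [Function.update_of_ne this]
      rfl
    rw [List.map_append, List.map_cons, e1 a' hja, e1 b' hjb, Function.update_self]
    simp only [List.map_append, List.map_cons, List.reverse_append, List.reverse_cons,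
      List.prod_append, List.prod_cons, List.prod_nil, mul_one, List.append_assoc, mul_assoc]

end

end Pool.Agent.Q20.PI
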